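import Mathlib

/-!
Finite impartial games, misere outcomes, disjunctive sums and misere quotients.
-/

namespace Pool.Agent.H893R3

/-- A finite (short) impartial game, given by the finite list of its options. -/
inductive Game : Type
  | mk (n : ℕ) (opt : Fin n → Game) : Game

namespace Game

/-- `IsOption G' G`: the game `G'` is an option of `G`. -/
def IsOption (G' : Game) : Game → Prop
  | mk n f => ∃ i : Fin n, f i = G'

/-- Helper for `add` (recursion on the second summand). -/
def addAux (n : ℕ) (F : Fin n → Game → Game) : Game → Game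
  | mk m g => mk (n + m) (Fin.addCases (fun i => F i (mk m g)) (fun j => addAux n F (g j)))

/-- The disjunctive sum `G + H`: its options are the `G' + H` and the `G + H'`
(see `isOption_add`). -/
def add : Game → Game → Game
  | mk n f => addAux n (fun i => add (f i))

/-- `IsN G`: the player to move wins `G` under misere play. Either `G` has no option, or some
option of `G` is not an N-position. -/
def IsN : Game → Prop
  | mk n f => n = 0 ∨ ∃ i : Fin n, ¬ IsN (f i)

/-- The empty game. -/
def zero : Game := mk 0 Fin.elim0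

theorem add_mk (n : ℕ) (f : Fin n → Game) (m : ℕ) (g : Fin m → Game) :
    add (mk n f) (mk m g) =
      mk (n + m) (Fin.addCases (fun i => add (f i) (mk m g)) (fun j => add (mk n f) (g j))) := rfl

theorem isOption_add (K G H : Game) :
    IsOption K (add G H) ↔
      (∃ G', IsOption G' G ∧ K = add G' H) ∨ (∃ H', IsOption H' H ∧ K = add G H') := by
  cases G with
  | mk n f =>
    cases H with
    | mk m g =>
      rw [add_mk]
      constructor
      · rintro ⟨i, hi⟩
        revert hi
        refine Fin.addCases (fun i hi => ?_) (fun i hi => ?_) i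
        · have hi' := (Fin.addCases_left (motive := fun _ => Game)
            (left := fun i => add (f i) (mk m g)) (right := fun j => add (mk n f) (g j)) i)
          exact Or.inl ⟨f i, ⟨i, rfl⟩, hi.symm.trans hi'⟩
        · have hi' := (Fin.addCases_right (motive := fun _ => Game)
            (left := fun i => add (f i) (mk m g)) (right := fun j => add (mk n f) (g j)) i)
          exact Or.inr ⟨g i, ⟨i, rfl⟩, hi.symm.trans hi'⟩
      · rintro (⟨G', ⟨i, rfl⟩, rfl⟩ | ⟨H', ⟨i, rfl⟩, rfl⟩)
        · exact ⟨Fin.castAdd m i, Fin.addCases_left i⟩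
        · exact ⟨Fin.natAdd n i, Fin.addCases_right i⟩

theorem isN_iff (G : Game) :
    IsN G ↔ (¬ ∃ G', IsOption G' G) ∨ ∃ G', IsOption G' G ∧ ¬ IsN G' := by
  cases G with
  | mk n f =>
    constructor
    · rintro (h | ⟨i, hi⟩)
      · left
        rintro ⟨G', i, _⟩
        exact absurd i.2 (by omega)
      · exact Or.inr ⟨f i, ⟨i, rfl⟩, hi⟩
    · rintro (h | ⟨G', ⟨i, rfl⟩, hi⟩)
      · left
        by_contra hn
        exact h ⟨f ⟨0, by omega⟩, ⟨0, by omega⟩, rfl⟩
      · exact Or.inr ⟨i, hi⟩

theorem ind {P : Game → Prop} (h : ∀ G, (∀ G', IsOption G' G → P G') → P G) (G : Game) : P G := by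
  induction G with
  | mk n f ih =>
    apply h
    rintro G' ⟨i, rfl⟩
    exact ih i

theorem not_isOption_zero (G' : Game) : ¬ IsOption G' zero := by
  rintro ⟨i, _⟩
  exact i.elim0

/-- Bisimulation between a game and a state of a transition system `R`. -/
def Rep {S : Type} (R : S → S → Prop) : Game → S → Prop
  | mk n f => fun x => (∀ i : Fin n, ∃ y, R x y ∧ Rep R (f i) y) ∧
      (∀ y, R x y → ∃ i : Fin n, Rep R (f i) y)

theorem rep_iff {S : Type} (R : S → S → Prop) (G : Game) (x : S) :
    Rep R G x ↔ (∀ G', IsOption G' G → ∃ y, R x y ∧ Rep R G' y) ∧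
      (∀ y, R x y → ∃ G', IsOption G' G ∧ Rep R G' y) := by
  cases G with
  | mk n f =>
    constructor
    · rintro ⟨h1, h2⟩
      refine ⟨?_, ?_⟩
      · rintro G' ⟨i, rfl⟩
        exact h1 i
      · intro y hy
        obtain ⟨i, hi⟩ := h2 y hy
        exact ⟨f i, ⟨i, rfl⟩, hi⟩
    · rintro ⟨h1, h2⟩
      refine ⟨fun i => h1 (f i) ⟨i, rfl⟩, ?_⟩
      intro y hy
      obtain ⟨G', ⟨i, rfl⟩, hG⟩ := h2 y hy
      exact ⟨i, hG⟩

theorem rep_add {S : Type} (R : S → S → Prop) (plus : S → S → S)
    (hR : ∀ x y z, R (plus x y) z ↔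
      (∃ x', R x x' ∧ z = plus x' y) ∨ (∃ y', R y y' ∧ z = plus x y')) :
    ∀ (G H : Game) (x y : S), Rep R G x → Rep R H y → Rep R (add G H) (plus x y) := by
  intro G
  induction G using ind with
  | h G ihG =>
    intro H
    induction H using ind with
    | h H ihH =>
      intro x y hG hH
      have hG' := (rep_iff R G x).1 hG
      have hH' := (rep_iff R H y).1 hH
      rw [rep_iff]
      constructor
      · intro K hK
        rcases (isOption_add K G H).1 hK with ⟨G', h1, rfl⟩ | ⟨H', h1, rfl⟩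
        · obtain ⟨x', h2, h3⟩ := hG'.1 G' h1
          exact ⟨plus x' y, (hR _ _ _).2 (Or.inl ⟨x', h2, rfl⟩), ihG G' h1 H x' y h3 hH⟩
        · obtain ⟨y', h2, h3⟩ := hH'.1 H' h1
          exact ⟨plus x y', (hR _ _ _).2 (Or.inr ⟨y', h2, rfl⟩), ihH H' h1 x y' hG h3⟩
      · intro z hz
        rcases (hR _ _ _).1 hz with ⟨x', h2, rfl⟩ | ⟨y', h2, rfl⟩
        · obtain ⟨G', h1, h3⟩ := hG'.2 x' h2
          exact ⟨add G' H, (isOption_add _ _ _).2 (Or.inl ⟨G', h1, rfl⟩),
            ihG G' h1 H x' y h3 hH⟩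
        · obtain ⟨H', h1, h3⟩ := hH'.2 y' h2
          exact ⟨add G H', (isOption_add _ _ _).2 (Or.inr ⟨H', h1, rfl⟩),
            ihH H' h1 x y' hG h3⟩

theorem rep_isN {S : Type} (R : S → S → Prop) (Q : S → Prop)
    (hQ : ∀ x, Q x ↔ (∃ y, R x y) ∧ ∀ y, R x y → ¬ Q y) :
    ∀ (G : Game) (x : S), Rep R G x → (IsN G ↔ ¬ Q x) := by
  intro G
  induction G using ind with
  | h G ih =>
    intro x h
    have h' := (rep_iff R G x).1 h
    rw [isN_iff, hQ x]
    constructor
    · rintro (h0 | ⟨G', h1, h2⟩) ⟨⟨y, hy⟩, hall⟩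
      · obtain ⟨G', h3, _⟩ := h'.2 y hy
        exact h0 ⟨G', h3⟩
      · obtain ⟨z, hz, hz2⟩ := h'.1 G' h1
        have h3 := ih G' h1 z hz2
        exact h2 (h3.2 (hall z hz))
    · intro h1
      by_contra hc
      rw [not_or] at hc
      obtain ⟨hc1, hc2⟩ := hc
      apply h1
      constructor
      · by_contra hne
        apply hc1
        rintro ⟨G', hG'⟩
        obtain ⟨y, hy, _⟩ := h'.1 G' hG'
        exact hne ⟨y, hy⟩
      · intro y hy hQy
        obtain ⟨G', h3, h4⟩ := h'.2 y hy
        exact hc2 ⟨G', h3, fun hN => ((ih G' h3 y h4).1 hN) hQy⟩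

/-- Two games with the same tree of options, up to order and repetition. -/
def Sim (G H : Game) : Prop := Rep (fun A B => IsOption B A) G H

theorem sim_iff (G H : Game) :
    Sim G H ↔ (∀ G', IsOption G' G → ∃ H', IsOption H' H ∧ Sim G' H') ∧
      (∀ H', IsOption H' H → ∃ G', IsOption G' G ∧ Sim G' H') :=
  rep_iff _ G H

theorem sim_isN {G H : Game} (h : Sim G H) : IsN G ↔ IsN H := by
  have := rep_isN (fun A B => IsOption B A) (fun H => ¬ IsN H) (by
    intro x
    show ¬ IsN x ↔ (∃ y, IsOption y x) ∧ ∀ y, IsOption y x → ¬ ¬ IsN y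
    rw [isN_iff x]
    constructor
    · intro h
      rw [not_or] at h
      refine ⟨not_not.1 h.1, ?_⟩
      intro y hy hn
      exact h.2 ⟨y, hy, hn⟩
    · rintro ⟨h1, h2⟩ (h3 | ⟨y, hy, hn⟩)
      · exact h3 h1
      · exact h2 y hy hn) G H h
  rw [this, not_not]

theorem sim_add {G G' H H' : Game} (h1 : Sim G G') (h2 : Sim H H') :
    Sim (add G H) (add G' H') :=
  rep_add (fun A B => IsOption B A) add (fun x y z => isOption_add z x y) G H G' H' h1 h2

theorem sim_refl (G : Game) : Sim G G := by
  induction G using ind with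
  | h G ih =>
    rw [sim_iff]
    exact ⟨fun G' h => ⟨G', h, ih G' h⟩, fun G' h => ⟨G', h, ih G' h⟩⟩

theorem sim_comm (G H : Game) : Sim (add G H) (add H G) := by
  induction G using ind generalizing H with
  | h G ihG =>
    induction H using ind with
    | h H ihH =>
      rw [sim_iff]
      constructor
      · intro K hK
        rcases (isOption_add K G H).1 hK with ⟨G', h1, rfl⟩ | ⟨H', h1, rfl⟩
        · exact ⟨add H G', (isOption_add _ _ _).2 (Or.inr ⟨G', h1, rfl⟩), ihG G' h1 H⟩
        · exact ⟨add H' G, (isOption_add _ _ _).2 (Or.inl ⟨H', h1, rfl⟩), ihH H' h1⟩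
      · intro K hK
        rcases (isOption_add K H G).1 hK with ⟨H', h1, rfl⟩ | ⟨G', h1, rfl⟩
        · exact ⟨add G H', (isOption_add _ _ _).2 (Or.inr ⟨H', h1, rfl⟩), ihH H' h1⟩
        · exact ⟨add G' H, (isOption_add _ _ _).2 (Or.inl ⟨G', h1, rfl⟩), ihG G' h1 H⟩

theorem sim_assoc (G H K : Game) : Sim (add (add G H) K) (add G (add H K)) := by
  induction G using ind generalizing H K with
  | h G ihG =>
    induction H using ind generalizing K with
    | h H ihH =>
      induction K using ind with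
      | h K ihK =>
        rw [sim_iff]
        constructor
        · intro L hL
          rcases (isOption_add L (add G H) K).1 hL with ⟨M, h1, rfl⟩ | ⟨K', h1, rfl⟩
          · rcases (isOption_add M G H).1 h1 with ⟨G', h2, rfl⟩ | ⟨H', h2, rfl⟩
            · exact ⟨add G' (add H K), (isOption_add _ _ _).2 (Or.inl ⟨G', h2, rfl⟩),
                ihG G' h2 H K⟩
            · exact ⟨add G (add H' K), (isOption_add _ _ _).2 (Or.inr ⟨add H' K,
                (isOption_add _ _ _).2 (Or.inl ⟨H', h2, rfl⟩), rfl⟩), ihH H' h2 K⟩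
          · exact ⟨add G (add H K'), (isOption_add _ _ _).2 (Or.inr ⟨add H K',
                (isOption_add _ _ _).2 (Or.inr ⟨K', h1, rfl⟩), rfl⟩), ihK K' h1⟩
        · intro L hL
          rcases (isOption_add L G (add H K)).1 hL with ⟨G', h1, rfl⟩ | ⟨M, h1, rfl⟩
          · exact ⟨add (add G' H) K, (isOption_add _ _ _).2 (Or.inl ⟨add G' H,
                (isOption_add _ _ _).2 (Or.inl ⟨G', h1, rfl⟩), rfl⟩), ihG G' h1 H K⟩
          · rcases (isOption_add M H K).1 h1 with ⟨H', h2, rfl⟩ | ⟨K', h2, rfl⟩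
            · exact ⟨add (add G H') K, (isOption_add _ _ _).2 (Or.inl ⟨add G H',
                (isOption_add _ _ _).2 (Or.inr ⟨H', h2, rfl⟩), rfl⟩), ihH H' h2 K⟩
            · exact ⟨add (add G H) K', (isOption_add _ _ _).2 (Or.inr ⟨K', h2, rfl⟩),
                ihK K' h2⟩

theorem sim_zero_add (G : Game) : Sim (add zero G) G := by
  induction G using ind with
  | h G ih =>
    rw [sim_iff]
    constructor
    · intro K hK
      rcases (isOption_add K zero G).1 hK with ⟨Z, h1, rfl⟩ | ⟨G', h1, rfl⟩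
      · exact absurd h1 (not_isOption_zero Z)
      · exact ⟨G', h1, ih G' h1⟩
    · intro G' h1
      exact ⟨add zero G', (isOption_add _ _ _).2 (Or.inr ⟨G', h1, rfl⟩), ih G' h1⟩

end Game

open Game

/-- A nonempty set of games closed under disjunctive sums and under taking options. -/
structure ClosedSet where
  /-- the set of games -/
  carrier : Set Game
  nonempty : carrier.Nonempty
  add_mem : ∀ G H, G ∈ carrier → H ∈ carrier → add G H ∈ carrier
  option_mem : ∀ G G', G ∈ carrier → IsOption G' G → G' ∈ carrier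

theorem ClosedSet.zero_mem (A : ClosedSet) : zero ∈ A.carrier := by
  obtain ⟨G, hG⟩ := A.nonempty
  induction G using ind with
  | h G ih =>
    by_cases h : ∃ G', IsOption G' G
    · obtain ⟨G', hG'⟩ := h
      exact ih G' hG' (A.option_mem G G' hG hG')
    · have hz : G = zero := by
        cases G with
        | mk n f =>
          rcases n with _ | n
          · unfold zero
            congr 1
            exact Subsingleton.elim _ _
          · exact absurd ⟨f 0, 0, rfl⟩ h
      rw [← hz]
      exact hG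

/-- Two games of `A` are equivalent modulo `A` if adding any `X` in `A` to them gives two games
with the same misere outcome. -/
def ClosedSet.setoid (A : ClosedSet) : Setoid {G : Game // G ∈ A.carrier} where
  r G H := ∀ X ∈ A.carrier, (IsN (add G.1 X) ↔ IsN (add H.1 X))
  iseqv :=
    { refl := fun _ _ _ => Iff.rfl
      symm := fun h X hX => (h X hX).symm
      trans := fun h1 h2 X hX => (h1 X hX).trans (h2 X hX) }

/-- The misere quotient of `A`. -/
def MisereQuotient (A : ClosedSet) : Type := Quotient A.setoid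

theorem Game.isN_assoc (G H X : Game) : IsN (add (add G H) X) ↔ IsN (add G (add H X)) :=
  sim_isN (sim_assoc G H X)

theorem Game.isN_comm (G H X : Game) : IsN (add (add G H) X) ↔ IsN (add (add H G) X) :=
  sim_isN (sim_add (sim_comm G H) (sim_refl X))

theorem ClosedSet.add_congr (A : ClosedSet) (G G' H H' : {G : Game // G ∈ A.carrier})
    (h1 : A.setoid.r G G') (h2 : A.setoid.r H H') :
    A.setoid.r ⟨add G.1 H.1, A.add_mem _ _ G.2 H.2⟩ ⟨add G'.1 H'.1, A.add_mem _ _ G'.2 H'.2⟩ := by
  intro X hX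
  show IsN (add (add G.1 H.1) X) ↔ IsN (add (add G'.1 H'.1) X)
  calc IsN (add (add G.1 H.1) X) ↔ IsN (add G.1 (add H.1 X)) := isN_assoc _ _ _
    _ ↔ IsN (add G'.1 (add H.1 X)) := h1 (add H.1 X) (A.add_mem _ _ H.2 hX)
    _ ↔ IsN (add (add G'.1 H.1) X) := (isN_assoc _ _ _).symm
    _ ↔ IsN (add (add H.1 G'.1) X) := isN_comm _ _ _
    _ ↔ IsN (add H.1 (add G'.1 X)) := isN_assoc _ _ _
    _ ↔ IsN (add H'.1 (add G'.1 X)) := h2 (add G'.1 X) (A.add_mem _ _ G'.2 hX)
    _ ↔ IsN (add (add H'.1 G'.1) X) := (isN_assoc _ _ _).symm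
    _ ↔ IsN (add (add G'.1 H'.1) X) := isN_comm _ _ _

/-- The class of a game of `A` in the misere quotient of `A`. -/
def MisereQuotient.of (A : ClosedSet) (G : Game) (hG : G ∈ A.carrier) : MisereQuotient A :=
  Quotient.mk A.setoid ⟨G, hG⟩

/-- The sum of the misere quotient: `[G] + [H] = [G + H]`. -/
def MisereQuotient.plus (A : ClosedSet) : MisereQuotient A → MisereQuotient A → MisereQuotient A :=
  Quotient.map₂ (fun G H => ⟨add G.1 H.1, A.add_mem _ _ G.2 H.2⟩)
    (fun _ _ h1 _ _ h2 => A.add_congr _ _ _ _ h1 h2)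

/-- The misere quotient is a commutative monoid with `[G] + [H] = [G + H]` whose identity is the
class of the empty game. -/
instance (A : ClosedSet) : AddCommMonoid (MisereQuotient A) where
  add := MisereQuotient.plus A
  zero := MisereQuotient.of A zero A.zero_mem
  nsmul := @nsmulRec _ ⟨MisereQuotient.of A zero A.zero_mem⟩ ⟨MisereQuotient.plus A⟩
  add_assoc := by
    rintro ⟨G⟩ ⟨H⟩ ⟨K⟩
    apply Quotient.sound
    intro X _
    exact sim_isN (sim_add (sim_assoc G.1 H.1 K.1) (sim_refl X))
  add_comm := by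
    rintro ⟨G⟩ ⟨H⟩
    apply Quotient.sound
    intro X _
    exact isN_comm G.1 H.1 X
  zero_add := by
    rintro ⟨G⟩
    apply Quotient.sound
    intro X _
    exact sim_isN (sim_add (sim_zero_add G.1) (sim_refl X))
  add_zero := by
    rintro ⟨G⟩
    apply Quotient.sound
    intro X _
    exact (isN_comm G.1 zero X).trans (sim_isN (sim_add (sim_zero_add G.1) (sim_refl X)))

/-- `x` has finite period `p`: there are least integers `m ≥ 1` and `p ≥ 1` with
`(m + p) x = m x`, and `p` is that least integer. -/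
def HasPeriod {M : Type} [AddCommMonoid M] (x : M) (p : ℕ) : Prop :=
  ∃ m : ℕ, 1 ≤ m ∧ 1 ≤ p ∧ (m + p) • x = m • x ∧
    ∀ m' p' : ℕ, 1 ≤ m' → 1 ≤ p' → (m' + p') • x = m' • x → m ≤ m' ∧ p ≤ p'

end Pool.Agent.H893R3
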