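import Mathlib

/-!
Arithmetic of the P-positions of the heap game with heaps `a = {0}`, `b = {0, a}`,
`c = {a, b, 2b, 3b}`, `d = {a + 2c, b + 2c, (2p+1)c}`.
-/

namespace Pool.Agent.H893R3

/-- The basic row pattern. -/
def Row (j m : ℕ) : Prop := (m % 2 = j % 2 ∧ m + 2 ≤ j) ∨ (m % 2 ≠ j % 2 ∧ j + 1 ≤ m)

/-- P-positions at level 0 (no heap `d`). -/
def T0 (i j m : ℕ) : Prop := ((i + m) % 2 = 0 ∧ Row j m) ∨ (i % 2 = 1 ∧ j = 0 ∧ m = 0)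

/-- P-positions at level 1. -/
def T1 (p i j m : ℕ) : Prop :=
  ((i + m) % 2 = 1 ∧ m % 2 ≠ j % 2 ∧ m + 3 ≤ j ∧ m + j ≤ 2 * p + 1) ∨
  ((i + m) % 2 = 0 ∧ m % 2 = j % 2 ∧ m + 2 ≤ j ∧ (2 * p + 4 ≤ m + j ∨ (j = p + 2 ∧ m = p))) ∨
  ((i + m) % 2 = 0 ∧ m % 2 ≠ j % 2 ∧ (j + 3 ≤ m ∨ (p ≤ j ∧ j + 1 ≤ m))) ∨
  (i % 2 = 0 ∧ j = 1 ∧ m = 0)

/-- P-positions at level `r` with `2 ≤ r ≤ p`. -/
def Tr (p r i j m : ℕ) : Prop :=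
  (i + m) % 2 = 0 ∧ ((j + r ≤ p ∧ Row (j + 2) m) ∨ (p < j + r ∧ Row j m))

/-! ### moves from a P-position do not reach a P-position -/

theorem T0_a (i j m : ℕ) (h : T0 (i + 1) j m) : ¬ T0 i j m := by
  unfold T0 Row at *
  omega

theorem T0_b (i j m : ℕ) (h : T0 i (j + 1) m) : ¬ T0 i j m ∧ ¬ T0 (i + 1) j m := by
  unfold T0 Row at *
  omega

theorem T0_c (i j m : ℕ) (h : T0 i j (m + 1)) :
    ¬ T0 (i + 1) j m ∧ ¬ T0 i (j + 1) m ∧ ¬ T0 i (j + 2) m ∧ ¬ T0 i (j + 3) m := by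
  unfold T0 Row at *
  omega

theorem T1_a (p i j m : ℕ) (hp : 2 ≤ p) (h : T1 p (i + 1) j m) : ¬ T1 p i j m := by
  unfold T1 at *
  omega

theorem T1_b (p i j m : ℕ) (hp : 2 ≤ p) (h : T1 p i (j + 1) m) : ¬ T1 p i j m ∧ ¬ T1 p (i + 1) j m := by
  unfold T1 at *
  omega

theorem T1_c (p i j m : ℕ) (hp : 2 ≤ p) (h : T1 p i j (m + 1)) :
    ¬ T1 p (i + 1) j m ∧ ¬ T1 p i (j + 1) m ∧ ¬ T1 p i (j + 2) m ∧ ¬ T1 p i (j + 3) m := by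
  unfold T1 at *
  refine ⟨?_, ?_, ?_, ?_⟩ <;> omega

theorem Tr_a (p r i j m : ℕ) (hr : 2 ≤ r) (hrp : r ≤ p) (h : Tr p r (i + 1) j m) : ¬ Tr p r i j m := by
  unfold Tr Row at *
  omega

theorem Tr_b (p r i j m : ℕ) (hr : 2 ≤ r) (hrp : r ≤ p) (h : Tr p r i (j + 1) m) :
    ¬ Tr p r i j m ∧ ¬ Tr p r (i + 1) j m := by
  unfold Tr Row at *
  omega

theorem Tr_c (p r i j m : ℕ) (hr : 2 ≤ r) (hrp : r ≤ p) (h : Tr p r i j (m + 1)) :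
    ¬ Tr p r (i + 1) j m ∧ ¬ Tr p r i (j + 1) m ∧ ¬ Tr p r i (j + 2) m ∧ ¬ Tr p r i (j + 3) m := by
  unfold Tr Row at *
  refine ⟨?_, ?_, ?_, ?_⟩ <;> omega

/-- level 1 above level 0 -/
theorem T10_d (p i j m : ℕ) (hp : 2 ≤ p) (h : T1 p i j m) :
    ¬ T0 (i + 1) j (m + 2) ∧ ¬ T0 i (j + 1) (m + 2) ∧ ¬ T0 i j (m + (2 * p + 1)) := by
  unfold T1 T0 Row at *
  refine ⟨?_, ?_, ?_⟩ <;> omega

/-- level 1 above level p -/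
theorem T1p_d (p i j m : ℕ) (hp : 2 ≤ p) (h : T1 p i j m) :
    ¬ Tr p p (i + 1) j (m + 2) ∧ ¬ Tr p p i (j + 1) (m + 2) ∧ ¬ Tr p p i j (m + (2 * p + 1)) := by
  unfold T1 Tr Row at *
  refine ⟨?_, ?_, ?_⟩ <;> omega

/-- level 2 above level 1 -/
theorem T21_d (p i j m : ℕ) (hp : 2 ≤ p) (h : Tr p 2 i j m) :
    ¬ T1 p (i + 1) j (m + 2) ∧ ¬ T1 p i (j + 1) (m + 2) ∧ ¬ T1 p i j (m + (2 * p + 1)) := by
  unfold T1 Tr Row at *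
  refine ⟨?_, ?_, ?_⟩ <;> omega

/-- level r+1 above level r -/
theorem Trr_d (p r i j m : ℕ) (hr : 2 ≤ r) (hrp : r + 1 ≤ p) (h : Tr p (r + 1) i j m) :
    ¬ Tr p r (i + 1) j (m + 2) ∧ ¬ Tr p r i (j + 1) (m + 2) ∧ ¬ Tr p r i j (m + (2 * p + 1)) := by
  unfold Tr Row at *
  refine ⟨?_, ?_, ?_⟩ <;> omega

end Pool.Agent.H893R3
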