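import Mathlib
import Pool.Agent.H893R3.PeriodArith

/-!
Every nonzero position outside the claimed P-set has an option inside the claimed P-set.
-/

namespace Pool.Agent.H893R3

/-- Some move of a heap `a`, `b` or `c` leads into `T`. -/
inductive Opt (T : ℕ → ℕ → ℕ → Prop) (i j m : ℕ) : Prop
  | a (h : 1 ≤ i) (h' : T (i - 1) j m)
  | b0 (h : 1 ≤ j) (h' : T i (j - 1) m)
  | b1 (h : 1 ≤ j) (h' : T (i + 1) (j - 1) m)
  | c0 (h : 1 ≤ m) (h' : T (i + 1) j (m - 1))
  | c1 (h : 1 ≤ m) (h' : T i (j + 1) (m - 1))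
  | c2 (h : 1 ≤ m) (h' : T i (j + 2) (m - 1))
  | c3 (h : 1 ≤ m) (h' : T i (j + 3) (m - 1))

/-- Some move of a heap `d` leads into `T`. -/
inductive DOpt (p : ℕ) (T : ℕ → ℕ → ℕ → Prop) (i j m : ℕ) : Prop
  | d0 (h : T (i + 1) j (m + 2))
  | d1 (h : T i (j + 1) (m + 2))
  | d2 (h : T i j (m + (2 * p + 1)))

theorem T0_ex (i j m : ℕ) (h : ¬ T0 i j m) (hne : i ≠ 0 ∨ j ≠ 0 ∨ m ≠ 0) : Opt T0 i j m := by
  by_cases hR : Row j m
  · have hpar : (i + m) % 2 = 1 := by
      by_contra hc
      exact h (Or.inl ⟨by omega, hR⟩)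
    by_cases hi : 1 ≤ i
    · exact Opt.a hi (Or.inl ⟨by omega, hR⟩)
    · have hi0 : i = 0 := by omega
      subst hi0
      unfold Row at hR
      by_cases hm : m = j + 1
      · exact Opt.c2 (by omega) (Or.inl ⟨by omega, by unfold Row; omega⟩)
      · exact Opt.c1 (by omega) (Or.inl ⟨by omega, by unfold Row; omega⟩)
  · unfold Row at hR
    by_cases hmj : m % 2 = j % 2
    · by_cases hj : 1 ≤ j
      · by_cases hpar : (i + m) % 2 = 0
        · exact Opt.b0 hj (Or.inl ⟨by omega, by unfold Row; omega⟩)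
        · exact Opt.b1 hj (Or.inl ⟨by omega, by unfold Row; omega⟩)
      · have hj0 : j = 0 := by omega
        subst hj0
        by_cases hm : m = 0
        · subst hm
          have hi : ¬ i % 2 = 1 := fun hc => h (Or.inr ⟨hc, rfl, rfl⟩)
          exact Opt.a (by omega) (Or.inr ⟨by omega, rfl, rfl⟩)
        · by_cases hi : i % 2 = 0
          · exact Opt.c0 (by omega) (Or.inl ⟨by omega, by unfold Row; omega⟩)
          · by_cases hm2 : m = 2
            · exact Opt.c3 (by omega) (Or.inl ⟨by omega, by unfold Row; omega⟩)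
            · exact Opt.c2 (by omega) (Or.inl ⟨by omega, by unfold Row; omega⟩)
    · by_cases hj : m + 3 ≤ j
      · by_cases hpar : (i + m) % 2 = 0
        · exact Opt.b0 (by omega) (Or.inl ⟨by omega, by unfold Row; omega⟩)
        · exact Opt.b1 (by omega) (Or.inl ⟨by omega, by unfold Row; omega⟩)
      · have hj1 : j = m + 1 := by omega
        subst hj1
        by_cases hm : m = 0
        · subst hm
          by_cases hi : i % 2 = 1
          · exact Opt.b0 (by omega) (Or.inr ⟨by omega, rfl, rfl⟩)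
          · exact Opt.b1 (by omega) (Or.inr ⟨by omega, rfl, rfl⟩)
        · by_cases hpar : (i + m) % 2 = 0
          · exact Opt.c0 (by omega) (Or.inl ⟨by omega, by unfold Row; omega⟩)
          · exact Opt.c2 (by omega) (Or.inl ⟨by omega, by unfold Row; omega⟩)

/-- The common part of level `0` and level `p` which is reachable by moves of `d`. -/
def R0 (i j m : ℕ) : Prop := (i + m) % 2 = 0 ∧ Row j m

theorem R0_T0 {i j m : ℕ} (h : R0 i j m) : T0 i j m := Or.inl h

theorem R0_Trp {p i j m : ℕ} (hm : 2 ≤ m) (h : R0 i j m) : Tr p p i j m := by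
  unfold R0 Row at h
  unfold Tr Row
  refine ⟨h.1, ?_⟩
  omega

theorem T1_ex (p i j m : ℕ) (hp : 2 ≤ p) (h : ¬ T1 p i j m) :
    Opt (T1 p) i j m ∨ DOpt p R0 i j m := by
  by_cases hpar : (i + m) % 2 = 0
  · -- even parity
    by_cases hmj : m % 2 = j % 2
    · by_cases h1 : j ≤ m
      · exact Or.inr (DOpt.d1 ⟨by omega, by unfold Row; omega⟩)
      · by_cases h2 : m + 4 ≤ j
        · refine Or.inl (Opt.b1 (by omega) (Or.inl ?_))
          have : ¬ (2 * p + 4 ≤ m + j) := fun hc => h (Or.inr (Or.inl ⟨hpar, hmj, by omega, Or.inl hc⟩))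
          omega
        · have hj : j = m + 2 := by omega
          subst hj
          have h3 : m < p := by
            by_contra hc
            apply h
            refine Or.inr (Or.inl ⟨hpar, hmj, by omega, ?_⟩)
            omega
          by_cases hm : m = 0
          · subst hm
            exact Or.inl (Opt.b0 (by omega) (Or.inr (Or.inr (Or.inr ⟨by omega, by omega, rfl⟩))))
          · exact Or.inl (Opt.c2 (by omega) (Or.inl (by omega)))
    · by_cases h1 : m + 3 ≤ j
      · exact Or.inr (DOpt.d1 ⟨by omega, by unfold Row; omega⟩)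
      · by_cases h2 : j = m + 1
        · subst h2
          by_cases hm : m = 0
          · subst hm
            exact absurd (Or.inr (Or.inr (Or.inr ⟨by omega, rfl, rfl⟩))) h
          · by_cases h3 : p + 1 ≤ m
            · refine Or.inl (Opt.c0 (by omega) (Or.inr (Or.inl ⟨by omega, by omega, by omega, ?_⟩)))
              omega
            · exact Or.inl (Opt.c1 (by omega) (Or.inl (by omega)))
        · have h3 : m = j + 1 ∧ j < p := by
            by_contra hc
            apply h
            exact Or.inr (Or.inr (Or.inl ⟨hpar, hmj, by omega⟩))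
          exact Or.inl (Opt.c3 (by omega) (Or.inl (by omega)))
  · by_cases hmj : m % 2 = j % 2
    · by_cases h1 : j ≤ m + 2 * p
      · exact Or.inr (DOpt.d2 ⟨by omega, by unfold Row; omega⟩)
      · exact Or.inr (DOpt.d0 ⟨by omega, by unfold Row; omega⟩)
    · by_cases h1 : j ≤ m + 1
      · exact Or.inr (DOpt.d0 ⟨by omega, by unfold Row; omega⟩)
      · by_cases h2 : m + 2 * p + 3 ≤ j
        · exact Or.inr (DOpt.d2 ⟨by omega, by unfold Row; omega⟩)
        · have h3 : 2 * p + 3 ≤ m + j := by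
            by_contra hc
            apply h
            exact Or.inl ⟨by omega, hmj, by omega, by omega⟩
          by_cases h4 : m + j = 2 * p + 3 ∧ m < p
          · exact Or.inl (Opt.c2 (by omega) (Or.inr (Or.inl ⟨by omega, by omega, by omega, by omega⟩)))
          · exact Or.inl (Opt.b1 (by omega) (Or.inr (Or.inl ⟨by omega, by omega, by omega, by omega⟩)))

theorem Tr_ex (p r i j m : ℕ) (hr : 3 ≤ r) (hrp : r ≤ p) (h : ¬ Tr p r i j m) :
    Opt (Tr p r) i j m ∨ DOpt p (Tr p (r - 1)) i j m := by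
  by_cases hR : (j + r ≤ p ∧ Row (j + 2) m) ∨ (p < j + r ∧ Row j m)
  · have hpar : (i + m) % 2 = 1 := by
      by_contra hc
      exact h ⟨by omega, hR⟩
    by_cases hi : 1 ≤ i
    · exact Or.inl (Opt.a hi ⟨by omega, hR⟩)
    · have hi0 : i = 0 := by omega
      subst hi0
      unfold Row at hR
      by_cases hmj : m % 2 = j % 2
      · by_cases h4 : m + 4 ≤ j
        · exact Or.inr (DOpt.d0 ⟨by omega, by unfold Row; omega⟩)
        · exact Or.inr (DOpt.d2 ⟨by omega, by unfold Row; omega⟩)
      · exact Or.inr (DOpt.d0 ⟨by omega, by unfold Row; omega⟩)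
  · unfold Row at hR
    by_cases hmj : m % 2 = j % 2
    · by_cases hpar : (i + m) % 2 = 0
      · exact Or.inr (DOpt.d1 ⟨by omega, by unfold Row; omega⟩)
      · exact Or.inr (DOpt.d2 ⟨by omega, by unfold Row; omega⟩)
    · by_cases hb : (m + 3 ≤ j) ∨ (j = m + 1 ∧ j + r ≤ p + 1)
      · by_cases hpar : (i + m) % 2 = 0
        · exact Or.inl (Opt.b0 (by omega) ⟨by omega, by unfold Row; omega⟩)
        · exact Or.inl (Opt.b1 (by omega) ⟨by omega, by unfold Row; omega⟩)
      · by_cases hpar : (i + m) % 2 = 0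
        · exact Or.inl (Opt.c0 (by omega) ⟨by omega, by unfold Row; omega⟩)
        · exact Or.inl (Opt.c2 (by omega) ⟨by omega, by unfold Row; omega⟩)

theorem T2_ex (p i j m : ℕ) (hrp : 2 ≤ p) (h : ¬ Tr p 2 i j m) :
    Opt (Tr p 2) i j m ∨ DOpt p (T1 p) i j m := by
  by_cases hR : (j + 2 ≤ p ∧ Row (j + 2) m) ∨ (p < j + 2 ∧ Row j m)
  · have hpar : (i + m) % 2 = 1 := by
      by_contra hc
      exact h ⟨by omega, hR⟩
    by_cases hi : 1 ≤ i
    · exact Or.inl (Opt.a hi ⟨by omega, hR⟩)
    · have hi0 : i = 0 := by omega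
      subst hi0
      unfold Row at hR
      by_cases hmj : m % 2 = j % 2
      · by_cases h4 : m + 2 * p ≤ j
        · exact Or.inr (DOpt.d0 (Or.inr (Or.inl ⟨by omega, by omega, by omega, by omega⟩)))
        · exact Or.inr (DOpt.d2 (Or.inr (Or.inr (Or.inl ⟨by omega, by omega, by omega⟩))))
      · exact Or.inr (DOpt.d0 (Or.inr (Or.inr (Or.inl ⟨by omega, by omega, by omega⟩))))
  · unfold Row at hR
    by_cases hmj : m % 2 = j % 2
    · by_cases hpar : (i + m) % 2 = 0
      · exact Or.inr (DOpt.d1 (Or.inr (Or.inr (Or.inl ⟨by omega, by omega, by omega⟩))))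
      · exact Or.inr (DOpt.d2 (Or.inr (Or.inr (Or.inl ⟨by omega, by omega, by omega⟩))))
    · by_cases hb : (m + 3 ≤ j) ∨ (j = m + 1 ∧ j + 2 ≤ p + 1)
      · by_cases hpar : (i + m) % 2 = 0
        · exact Or.inl (Opt.b0 (by omega) ⟨by omega, by unfold Row; omega⟩)
        · exact Or.inl (Opt.b1 (by omega) ⟨by omega, by unfold Row; omega⟩)
      · by_cases hpar : (i + m) % 2 = 0
        · exact Or.inl (Opt.c0 (by omega) ⟨by omega, by unfold Row; omega⟩)
        · exact Or.inl (Opt.c2 (by omega) ⟨by omega, by unfold Row; omega⟩)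

end Pool.Agent.H893R3
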