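import Mathlib
import Pool.Agent.H893R3.PeriodExist

/-!
The heap game on states `(i, j, m, n)` (numbers of heaps `a, b, c, d`), its moves, and the
description of its misere P-positions.
-/

namespace Pool.Agent.H893R3

/-- A position: numbers of heaps of the four kinds. -/
@[ext]
structure St where
  i : ℕ
  j : ℕ
  m : ℕ
  n : ℕ

/-- Componentwise sum. -/
def St.plus (x y : St) : St := ⟨x.i + y.i, x.j + y.j, x.m + y.m, x.n + y.n⟩

/-- The moves, for `a = {0}`, `b = {0, a}`, `c = {a, b, 2b, 3b}`, `d = {a + 2c, b + 2c, k c}`. -/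
def Step (k : ℕ) (x y : St) : Prop :=
  (x.n = y.n ∧ x.m = y.m ∧ x.j = y.j ∧ x.i = y.i + 1) ∨
  (x.n = y.n ∧ x.m = y.m ∧ x.j = y.j + 1 ∧ (y.i = x.i ∨ y.i = x.i + 1)) ∨
  (x.n = y.n ∧ x.m = y.m + 1 ∧ ((y.i = x.i + 1 ∧ y.j = x.j) ∨
    (y.i = x.i ∧ (y.j = x.j + 1 ∨ y.j = x.j + 2 ∨ y.j = x.j + 3)))) ∨
  (x.n = y.n + 1 ∧ ((y.i = x.i + 1 ∧ y.j = x.j ∧ y.m = x.m + 2) ∨
    (y.i = x.i ∧ y.j = x.j + 1 ∧ y.m = x.m + 2) ∨
    (y.i = x.i ∧ y.j = x.j ∧ y.m = x.m + k)))

theorem step_plus_left {k : ℕ} {x x' : St} (y : St) (h : Step k x x') :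
    Step k (x.plus y) (x'.plus y) := by
  unfold Step St.plus at *
  dsimp only at *
  rcases h with h | h | h | h
  · left; omega
  · right; left; omega
  · right; right; left; omega
  · right; right; right; omega

theorem plus_comm (x y : St) : x.plus y = y.plus x := by
  unfold St.plus
  ext <;> simp <;> omega

theorem step_plus_right {k : ℕ} {y y' : St} (x : St) (h : Step k y y') :
    Step k (x.plus y) (x.plus y') := by
  rw [plus_comm x y, plus_comm x y']
  exact step_plus_left x h

theorem step_plus {k : ℕ} {x y z : St} (h : Step k (x.plus y) z) :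
    (∃ x', Step k x x' ∧ z = x'.plus y) ∨ (∃ y', Step k y y' ∧ z = x.plus y') := by
  have key : ∀ x y z : St, Step k (x.plus y) z →
      ((x.n + y.n = z.n + 1 ∧ 1 ≤ x.n) ∨ (x.n + y.n = z.n ∧ x.m + y.m = z.m + 1 ∧ 1 ≤ x.m) ∨
        (x.n + y.n = z.n ∧ x.m + y.m = z.m ∧ x.j + y.j = z.j + 1 ∧ 1 ≤ x.j) ∨
        (x.n + y.n = z.n ∧ x.m + y.m = z.m ∧ x.j + y.j = z.j ∧ 1 ≤ x.i)) →
      (∃ x', Step k x x' ∧ z = x'.plus y) := by
    intro x y z h hc
    refine ⟨⟨z.i - y.i, z.j - y.j, z.m - y.m, z.n - y.n⟩, ?_, ?_⟩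
    · unfold Step St.plus at *
      dsimp only at *
      rcases h with h | h | h | h
      · left; omega
      · right; left; omega
      · right; right; left; omega
      · right; right; right; omega
    · unfold Step St.plus at *
      dsimp only at *
      ext <;> dsimp only <;> omega
  by_cases hc : ((x.n + y.n = z.n + 1 ∧ 1 ≤ x.n) ∨ (x.n + y.n = z.n ∧ x.m + y.m = z.m + 1 ∧ 1 ≤ x.m) ∨
        (x.n + y.n = z.n ∧ x.m + y.m = z.m ∧ x.j + y.j = z.j + 1 ∧ 1 ≤ x.j) ∨
        (x.n + y.n = z.n ∧ x.m + y.m = z.m ∧ x.j + y.j = z.j ∧ 1 ≤ x.i))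
  · exact Or.inl (key x y z h hc)
  · right
    rw [plus_comm] at h
    have hc1 : ¬ (x.n + y.n = z.n + 1 ∧ 1 ≤ x.n) := fun hq => hc (Or.inl hq)
    have hc2 : ¬ (x.n + y.n = z.n ∧ x.m + y.m = z.m + 1 ∧ 1 ≤ x.m) :=
      fun hq => hc (Or.inr (Or.inl hq))
    have hc3 : ¬ (x.n + y.n = z.n ∧ x.m + y.m = z.m ∧ x.j + y.j = z.j + 1 ∧ 1 ≤ x.j) :=
      fun hq => hc (Or.inr (Or.inr (Or.inl hq)))
    have hc4 : ¬ (x.n + y.n = z.n ∧ x.m + y.m = z.m ∧ x.j + y.j = z.j ∧ 1 ≤ x.i) :=
      fun hq => hc (Or.inr (Or.inr (Or.inr hq)))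
    obtain ⟨y', h1, h2⟩ := key y x z h (by
      unfold Step St.plus at h
      dsimp only at h
      rcases h with h | h | h | h
      · right; right; right; omega
      · right; right; left; omega
      · right; left; omega
      · left; omega)
    exact ⟨y', h1, by rw [plus_comm]; exact h2⟩

/-- The P-set at a level. -/
def TL (p : ℕ) : ℕ → ℕ → ℕ → ℕ → Prop
  | 0 => T0
  | 1 => T1 p
  | (r + 2) => Tr p (r + 2)

/-- The level belonging to `n` heaps `d`. -/
def lev (p n : ℕ) : ℕ := if n = 0 then 0 else (n - 1) % p + 1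

/-- The set of misere P-positions of the heap game with `k = 2p + 1`. -/
def PS (p : ℕ) (x : St) : Prop := TL p (lev p x.n) x.i x.j x.m

/-- The relation between a level and the level below. -/
inductive Below (p : ℕ) : ℕ → ℕ → Prop
  | zero : Below p 1 0
  | wrap : Below p 1 p
  | two (h : 2 ≤ p) : Below p 2 1
  | succ (r : ℕ) (h : 3 ≤ r) (h' : r ≤ p) : Below p r (r - 1)

theorem below_lev (p n : ℕ) (hp : 2 ≤ p) : Below p (lev p (n + 1)) (lev p n) := by
  by_cases hn : n = 0
  · subst hn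
    have h1 : lev p (0 + 1) = 1 := by simp [lev]
    have h0 : lev p 0 = 0 := by simp [lev]
    rw [h1, h0]
    exact Below.zero
  · have h0 : lev p n = (n - 1) % p + 1 := by simp [lev, hn]
    have h1 : lev p (n + 1) = n % p + 1 := by simp [lev]
    obtain ⟨q, hq⟩ : ∃ q, n = q + 1 := ⟨n - 1, by omega⟩
    subst hq
    have hq0 : (q + 1 - 1) = q := by omega
    rw [h0, h1, hq0]
    have hlt : q % p < p := Nat.mod_lt _ (by omega)
    have hs : (q + 1) % p = if q % p + 1 = p then 0 else q % p + 1 := by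
      rw [Nat.add_mod, Nat.mod_eq_of_lt (show 1 < p by omega)]
      split_ifs with hc
      · rw [hc, Nat.mod_self]
      · exact Nat.mod_eq_of_lt (by omega)
    rw [hs]
    split_ifs with hc
    · rw [hc]
      exact Below.wrap
    · by_cases h2 : q % p = 0
      · rw [h2]
        exact Below.two hp
      · have := Below.succ (p := p) (q % p + 1 + 1) (by omega) (by omega)
        simpa using this

theorem lev_le (p n : ℕ) (hp : 2 ≤ p) : lev p n ≤ p := by
  unfold lev
  split_ifs
  · omega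
  · have := Nat.mod_lt (n - 1) (show 0 < p by omega)
    omega

theorem TL_of_two_le {p r : ℕ} (h : 2 ≤ r) : TL p r = Tr p r := by
  obtain ⟨s, rfl⟩ : ∃ s, r = s + 2 := ⟨r - 2, by omega⟩
  rfl

/-- moves inside a level never join two P-positions -/
theorem level_a (p r i j m : ℕ) (hp : 2 ≤ p) (hr : r ≤ p) (h : TL p r (i + 1) j m) : ¬ TL p r i j m := by
  rcases r with _ | _ | r
  · exact T0_a i j m h
  · exact T1_a p i j m hp h
  · exact Tr_a p (r + 2) i j m (by omega) hr h

theorem level_b (p r i j m : ℕ) (hp : 2 ≤ p) (hr : r ≤ p) (h : TL p r i (j + 1) m) :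
    ¬ TL p r i j m ∧ ¬ TL p r (i + 1) j m := by
  rcases r with _ | _ | r
  · exact T0_b i j m h
  · exact T1_b p i j m hp h
  · exact Tr_b p (r + 2) i j m (by omega) hr h

theorem level_c (p r i j m : ℕ) (hp : 2 ≤ p) (hr : r ≤ p) (h : TL p r i j (m + 1)) :
    ¬ TL p r (i + 1) j m ∧ ¬ TL p r i (j + 1) m ∧ ¬ TL p r i (j + 2) m ∧ ¬ TL p r i (j + 3) m := by
  rcases r with _ | _ | r
  · exact T0_c i j m h
  · exact T1_c p i j m hp h
  · exact Tr_c p (r + 2) i j m (by omega) hr h

theorem level_d (p r s i j m : ℕ) (hp : 2 ≤ p) (hb : Below p r s) (h : TL p r i j m) :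
    ¬ TL p s (i + 1) j (m + 2) ∧ ¬ TL p s i (j + 1) (m + 2) ∧ ¬ TL p s i j (m + (2 * p + 1)) := by
  cases hb with
  | zero => exact T10_d p i j m hp h
  | wrap =>
    rw [TL_of_two_le hp]
    exact T1p_d p i j m hp h
  | two _ => exact T21_d p i j m hp h
  | succ r h1 h2 =>
    rw [TL_of_two_le (show 2 ≤ r - 1 by omega)]
    rw [TL_of_two_le (show 2 ≤ r by omega)] at h
    obtain ⟨q, rfl⟩ : ∃ q, r = q + 1 := ⟨r - 1, by omega⟩
    exact Trr_d p q i j m (by omega) h2 h

theorem level_ex (p r s i j m : ℕ) (hp : 2 ≤ p) (hb : Below p r s) (h : ¬ TL p r i j m) :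
    Opt (TL p r) i j m ∨ DOpt p (TL p s) i j m := by
  cases hb with
  | zero =>
    rcases T1_ex p i j m hp h with h | h
    · exact Or.inl h
    · right
      cases h with
      | d0 h => exact DOpt.d0 (R0_T0 h)
      | d1 h => exact DOpt.d1 (R0_T0 h)
      | d2 h => exact DOpt.d2 (R0_T0 h)
  | wrap =>
    rcases T1_ex p i j m hp h with h | h
    · exact Or.inl h
    · right
      rw [TL_of_two_le hp]
      cases h with
      | d0 h => exact DOpt.d0 (R0_Trp (by omega) h)
      | d1 h => exact DOpt.d1 (R0_Trp (by omega) h)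
      | d2 h => exact DOpt.d2 (R0_Trp (by omega) h)
  | two _ => exact T2_ex p i j m hp h
  | succ r h1 h2 =>
    rw [TL_of_two_le (show 2 ≤ r - 1 by omega), TL_of_two_le (show 2 ≤ r by omega)]
    rw [TL_of_two_le (show 2 ≤ r by omega)] at h
    exact Tr_ex p _ i j m h1 h2 h

theorem T0_zero : ¬ T0 0 0 0 := by
  unfold T0 Row
  omega

/-- The recursion for P-positions: a position is a P-position exactly when it has a move and no
move reaches a P-position. -/
theorem PS_iff (p : ℕ) (hp : 2 ≤ p) (x : St) :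
    PS p x ↔ (∃ y, Step (2 * p + 1) x y) ∧ ∀ y, Step (2 * p + 1) x y → ¬ PS p y := by
  obtain ⟨i, j, m, n⟩ := x
  constructor
  · intro h
    constructor
    · by_cases hn : n = 0
      · subst hn
        by_cases hi : i = 0
        · subst hi
          by_cases hj : j = 0
          · subst hj
            by_cases hm : m = 0
            · subst hm
              exfalso
              unfold PS at h
              have h0 : lev p 0 = 0 := by simp [lev]
              dsimp only at h
              rw [h0] at h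
              exact T0_zero h
            · exact ⟨⟨1, 0, m - 1, 0⟩, by unfold Step; dsimp only; omega⟩
          · exact ⟨⟨0, j - 1, m, 0⟩, by unfold Step; dsimp only; omega⟩
        · exact ⟨⟨i - 1, j, m, 0⟩, by unfold Step; dsimp only; omega⟩
      · exact ⟨⟨i + 1, j, m + 2, n - 1⟩, by unfold Step; dsimp only; omega⟩
    · rintro ⟨i', j', m', n'⟩ hs hP
      unfold PS at h hP
      dsimp only at h hP
      unfold Step at hs
      dsimp only at hs
      rcases hs with hs | hs | hs | hs
      · obtain ⟨rfl, rfl, rfl, rfl⟩ := hs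
        exact level_a p _ _ _ _ hp (lev_le p _ hp) h hP
      · obtain ⟨rfl, rfl, rfl, hs⟩ := hs
        have := level_b p _ _ _ _ hp (lev_le p _ hp) h
        rcases hs with rfl | rfl
        · exact this.1 hP
        · exact this.2 hP
      · obtain ⟨rfl, rfl, hs⟩ := hs
        have := level_c p _ _ _ _ hp (lev_le p _ hp) h
        rcases hs with ⟨rfl, rfl⟩ | ⟨rfl, rfl | rfl | rfl⟩
        · exact this.1 hP
        · exact this.2.1 hP
        · exact this.2.2.1 hP
        · exact this.2.2.2 hP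
      · obtain ⟨rfl, hs⟩ := hs
        have := level_d p _ _ i j m hp (below_lev p _ hp) h
        rcases hs with ⟨rfl, rfl, rfl⟩ | ⟨rfl, rfl, rfl⟩ | ⟨rfl, rfl, rfl⟩
        · exact this.1 hP
        · exact this.2.1 hP
        · exact this.2.2 hP
  · rintro ⟨hex, hall⟩
    by_contra h
    have hopt : ¬ Opt (TL p (lev p n)) i j m := by
      intro ho
      cases ho with
      | a h1 h2 => exact hall ⟨i - 1, j, m, n⟩ (by unfold Step; dsimp only; omega) h2
      | b0 h1 h2 => exact hall ⟨i, j - 1, m, n⟩ (by unfold Step; dsimp only; omega) h2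
      | b1 h1 h2 => exact hall ⟨i + 1, j - 1, m, n⟩ (by unfold Step; dsimp only; omega) h2
      | c0 h1 h2 => exact hall ⟨i + 1, j, m - 1, n⟩ (by unfold Step; dsimp only; omega) h2
      | c1 h1 h2 => exact hall ⟨i, j + 1, m - 1, n⟩ (by unfold Step; dsimp only; omega) h2
      | c2 h1 h2 => exact hall ⟨i, j + 2, m - 1, n⟩ (by unfold Step; dsimp only; omega) h2
      | c3 h1 h2 => exact hall ⟨i, j + 3, m - 1, n⟩ (by unfold Step; dsimp only; omega) h2
    rcases n with _ | n
    · have h0 : lev p 0 = 0 := by simp [lev]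
      unfold PS at h
      dsimp only at h
      rw [h0] at h hopt
      apply hopt
      apply T0_ex i j m h
      obtain ⟨y, hy⟩ := hex
      unfold Step at hy
      dsimp only at hy
      omega
    · rcases level_ex p _ _ i j m hp (below_lev p n hp) h with ho | ho
      · exact hopt ho
      · cases ho with
        | d0 h1 => exact hall ⟨i + 1, j, m + 2, n⟩ (by unfold Step; dsimp only; omega) h1
        | d1 h1 => exact hall ⟨i, j + 1, m + 2, n⟩ (by unfold Step; dsimp only; omega) h1
        | d2 h1 => exact hall ⟨i, j, m + (2 * p + 1), n⟩ (by unfold Step; dsimp only; omega) h1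

end Pool.Agent.H893R3
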