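import Mathlib
import Pool.Agent.H893R3.Misere
import Pool.Agent.H893R3.PeriodState

/-!
The heaps `a, b, c, d` as games, and the misere quotient of the positions of the heap game.
-/

namespace Pool.Agent.H893R3

open Game

/-- `r` copies of a game. -/
def mul : ℕ → Game → Game
  | 0, _ => Game.zero
  | (r + 1), G => add (mul r G) G

/-- the heap `a` (nim heap of size one) -/
def gA : Game := Game.mk 1 (fun _ => Game.zero)

/-- the heap `b` (nim heap of size two) -/
def gB : Game := Game.mk 2 (fun i => if i.1 = 0 then Game.zero else gA)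

/-- the heap `c = {a, b, 2b, 3b}` -/
def gC : Game := Game.mk 4 (fun i => if i.1 = 0 then gA else mul i.1 gB)

/-- the heap `d = {a + 2c, b + 2c, k c}` -/
def gD (k : ℕ) : Game :=
  Game.mk 3 (fun i => if i.1 = 0 then add gA (mul 2 gC) else if i.1 = 1 then add gB (mul 2 gC)
    else mul k gC)

theorem rep_plus (k : ℕ) (G H : Game) (x y : St) (hG : Rep (Step k) G x) (hH : Rep (Step k) H y) :
    Rep (Step k) (add G H) (x.plus y) := by
  refine rep_add (Step k) St.plus ?_ G H x y hG hH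
  intro x y z
  constructor
  · exact step_plus
  · rintro (⟨x', h, rfl⟩ | ⟨y', h, rfl⟩)
    · exact step_plus_left y h
    · exact step_plus_right x h

theorem rep_zero (k : ℕ) : Rep (Step k) Game.zero ⟨0, 0, 0, 0⟩ := by
  rw [rep_iff]
  constructor
  · intro G' h
    exact absurd h (not_isOption_zero G')
  · intro y hy
    exfalso
    unfold Step at hy
    dsimp only at hy
    omega

theorem rep_mul (k : ℕ) (G : Game) (x : St) (hG : Rep (Step k) G x) (r : ℕ) :
    Rep (Step k) (mul r G) ⟨r * x.i, r * x.j, r * x.m, r * x.n⟩ := by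
  induction r with
  | zero =>
    simp only [Nat.zero_mul]
    exact rep_zero k
  | succ r ih =>
    have h := rep_plus k _ _ _ _ ih hG
    have e : St.plus ⟨r * x.i, r * x.j, r * x.m, r * x.n⟩ x =
        ⟨(r + 1) * x.i, (r + 1) * x.j, (r + 1) * x.m, (r + 1) * x.n⟩ := by
      unfold St.plus
      ext <;> simp [Nat.add_mul]
    rw [e] at h
    exact h

theorem rep_a (k : ℕ) : Rep (Step k) gA ⟨1, 0, 0, 0⟩ := by
  rw [rep_iff]
  constructor
  · rintro G' ⟨i, rfl⟩
    exact ⟨⟨0, 0, 0, 0⟩, by unfold Step; dsimp only; omega, rep_zero k⟩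
  · rintro ⟨y1, y2, y3, y4⟩ hy
    refine ⟨Game.zero, ⟨0, rfl⟩, ?_⟩
    have e : (⟨y1, y2, y3, y4⟩ : St) = ⟨0, 0, 0, 0⟩ := by
      unfold Step at hy
      dsimp only at hy
      ext <;> dsimp only <;> omega
    rw [e]
    exact rep_zero k

theorem rep_b (k : ℕ) : Rep (Step k) gB ⟨0, 1, 0, 0⟩ := by
  rw [rep_iff]
  constructor
  · rintro G' ⟨i, rfl⟩
    dsimp only
    by_cases hi : i.1 = 0
    · rw [if_pos hi]
      exact ⟨⟨0, 0, 0, 0⟩, by unfold Step; dsimp only; omega, rep_zero k⟩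
    · rw [if_neg hi]
      exact ⟨⟨1, 0, 0, 0⟩, by unfold Step; dsimp only; omega, rep_a k⟩
  · rintro ⟨y1, y2, y3, y4⟩ hy
    by_cases h : y1 = 0
    · refine ⟨Game.zero, ⟨⟨0, by omega⟩, rfl⟩, ?_⟩
      have e : (⟨y1, y2, y3, y4⟩ : St) = ⟨0, 0, 0, 0⟩ := by
        unfold Step at hy
        dsimp only at hy
        ext <;> dsimp only <;> omega
      rw [e]
      exact rep_zero k
    · refine ⟨gA, ⟨⟨1, by omega⟩, rfl⟩, ?_⟩
      have e : (⟨y1, y2, y3, y4⟩ : St) = ⟨1, 0, 0, 0⟩ := by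
        unfold Step at hy
        dsimp only at hy
        ext <;> dsimp only <;> omega
      rw [e]
      exact rep_a k

theorem rep_mulb (k r : ℕ) : Rep (Step k) (mul r gB) ⟨0, r, 0, 0⟩ := by
  have h := rep_mul k gB _ (rep_b k) r
  simpa using h

theorem rep_c (k : ℕ) : Rep (Step k) gC ⟨0, 0, 1, 0⟩ := by
  rw [rep_iff]
  constructor
  · rintro G' ⟨i, rfl⟩
    dsimp only
    by_cases hi : i.1 = 0
    · rw [if_pos hi]
      exact ⟨⟨1, 0, 0, 0⟩, by unfold Step; dsimp only; omega, rep_a k⟩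
    · rw [if_neg hi]
      have := i.2
      exact ⟨⟨0, i.1, 0, 0⟩, by unfold Step; dsimp only; omega, rep_mulb k i.1⟩
  · rintro ⟨y1, y2, y3, y4⟩ hy
    by_cases h : y2 = 0
    · refine ⟨gA, ⟨⟨0, by omega⟩, rfl⟩, ?_⟩
      have e : (⟨y1, y2, y3, y4⟩ : St) = ⟨1, 0, 0, 0⟩ := by
        unfold Step at hy
        dsimp only at hy
        ext <;> dsimp only <;> omega
      rw [e]
      exact rep_a k
    · have h4 : y2 < 4 := by
        unfold Step at hy
        dsimp only at hy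
        omega
      refine ⟨mul y2 gB, ⟨⟨y2, h4⟩, ?_⟩, ?_⟩
      · show (if y2 = 0 then gA else mul y2 gB) = mul y2 gB
        rw [if_neg h]
      have e : (⟨y1, y2, y3, y4⟩ : St) = ⟨0, y2, 0, 0⟩ := by
        unfold Step at hy
        dsimp only at hy
        ext <;> dsimp only <;> omega
      rw [e]
      exact rep_mulb k y2

theorem rep_mulc (k r : ℕ) : Rep (Step k) (mul r gC) ⟨0, 0, r, 0⟩ := by
  have h := rep_mul k gC _ (rep_c k) r
  simpa using h

theorem rep_d (k : ℕ) : Rep (Step k) (gD k) ⟨0, 0, 0, 1⟩ := by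
  have r0 : Rep (Step k) (add gA (mul 2 gC)) ⟨1, 0, 2, 0⟩ := by
    have h := rep_plus k _ _ _ _ (rep_a k) (rep_mulc k 2)
    exact h
  have r1 : Rep (Step k) (add gB (mul 2 gC)) ⟨0, 1, 2, 0⟩ := by
    have h := rep_plus k _ _ _ _ (rep_b k) (rep_mulc k 2)
    exact h
  have r2 : Rep (Step k) (mul k gC) ⟨0, 0, k, 0⟩ := rep_mulc k k
  rw [rep_iff]
  constructor
  · rintro G' ⟨i, rfl⟩
    dsimp only
    by_cases hi : i.1 = 0
    · rw [if_pos hi]
      exact ⟨⟨1, 0, 2, 0⟩, by unfold Step; dsimp only; omega, r0⟩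
    · rw [if_neg hi]
      by_cases hi1 : i.1 = 1
      · rw [if_pos hi1]
        exact ⟨⟨0, 1, 2, 0⟩, by unfold Step; dsimp only; omega, r1⟩
      · rw [if_neg hi1]
        exact ⟨⟨0, 0, k, 0⟩, by unfold Step; dsimp only; omega, r2⟩
  · rintro ⟨y1, y2, y3, y4⟩ hy
    unfold Step at hy
    dsimp only at hy
    by_cases h1 : y1 = 1
    · refine ⟨add gA (mul 2 gC), ⟨⟨0, by omega⟩, rfl⟩, ?_⟩
      have e : (⟨y1, y2, y3, y4⟩ : St) = ⟨1, 0, 2, 0⟩ := by
        ext <;> dsimp only <;> omega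
      rw [e]
      exact r0
    · by_cases h2 : y2 = 1
      · refine ⟨add gB (mul 2 gC), ⟨⟨1, by omega⟩, rfl⟩, ?_⟩
        have e : (⟨y1, y2, y3, y4⟩ : St) = ⟨0, 1, 2, 0⟩ := by
          ext <;> dsimp only <;> omega
        rw [e]
        exact r1
      · refine ⟨mul k gC, ⟨⟨2, by omega⟩, rfl⟩, ?_⟩
        have e : (⟨y1, y2, y3, y4⟩ : St) = ⟨0, 0, k, 0⟩ := by
          ext <;> dsimp only <;> omega
        rw [e]
        exact r2

/-- All games that represent a position of the heap game. -/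
def heapClass (k : ℕ) : ClosedSet where
  carrier := {G | ∃ x : St, Rep (Step k) G x}
  nonempty := ⟨Game.zero, _, rep_zero k⟩
  add_mem := by
    rintro G H ⟨x, hx⟩ ⟨y, hy⟩
    exact ⟨_, rep_plus k G H x y hx hy⟩
  option_mem := by
    rintro G G' ⟨x, hx⟩ h
    obtain ⟨y, _, hy⟩ := ((rep_iff (Step k) G x).1 hx).1 G' h
    exact ⟨y, hy⟩

theorem isN_rep (p : ℕ) (hp : 2 ≤ p) (G : Game) (x : St) (h : Rep (Step (2 * p + 1)) G x) :
    IsN G ↔ ¬ PS p x :=
  rep_isN (Step (2 * p + 1)) (PS p) (PS_iff p hp) G x h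

theorem mem_d (p : ℕ) : gD (2 * p + 1) ∈ (heapClass (2 * p + 1)).carrier :=
  ⟨_, rep_d (2 * p + 1)⟩

/-- The class of the heap `d`. -/
def clsD (p : ℕ) : MisereQuotient (heapClass (2 * p + 1)) :=
  MisereQuotient.of _ (gD (2 * p + 1)) (mem_d p)

theorem rep_muld (p r : ℕ) : Rep (Step (2 * p + 1)) (mul r (gD (2 * p + 1))) ⟨0, 0, 0, r⟩ := by
  have h := rep_mul (2 * p + 1) _ _ (rep_d (2 * p + 1)) r
  simpa using h

theorem nsmul_clsD (p r : ℕ) :
    r • clsD p = MisereQuotient.of (heapClass (2 * p + 1)) (mul r (gD (2 * p + 1)))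
      (show ∃ x : St, Rep (Step (2 * p + 1)) (mul r (gD (2 * p + 1))) x from
        ⟨_, rep_muld p r⟩) := by
  induction r with
  | zero =>
    rw [zero_nsmul]
    rfl
  | succ r ih =>
    rw [succ_nsmul, ih]
    rfl

/-- Equality of multiples of `[d]` in terms of P-positions. -/
theorem nsmul_eq_iff (p : ℕ) (hp : 2 ≤ p) (r s : ℕ) :
    r • clsD p = s • clsD p ↔ ∀ i j m n : ℕ,
      (∃ G, Rep (Step (2 * p + 1)) G ⟨i, j, m, n⟩) →
      (PS p ⟨i, j, m, r + n⟩ ↔ PS p ⟨i, j, m, s + n⟩) := by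
  rw [nsmul_clsD, nsmul_clsD]
  unfold MisereQuotient.of
  have key : ∀ (q : ℕ) (X : Game) (i j m n : ℕ), Rep (Step (2 * p + 1)) X ⟨i, j, m, n⟩ →
      (IsN (add (mul q (gD (2 * p + 1))) X) ↔ ¬ PS p ⟨i, j, m, q + n⟩) := by
    intro q X i j m n hX
    have h := rep_plus _ _ _ _ _ (rep_muld p q) hX
    rw [isN_rep p hp _ _ h]
    unfold St.plus
    simp only [Nat.zero_add]
  constructor
  · rintro h i j m n ⟨X, hX⟩
    have h2 := Quotient.exact h
    have h3 : IsN (add (mul r (gD (2 * p + 1))) X) ↔ IsN (add (mul s (gD (2 * p + 1))) X) :=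
      h2 X ⟨_, hX⟩
    rw [key r X i j m n hX, key s X i j m n hX] at h3
    exact not_iff_not.1 h3
  · intro h
    apply Quotient.sound
    rintro X ⟨⟨i, j, m, n⟩, hX⟩
    show IsN (add (mul r (gD (2 * p + 1))) X) ↔ IsN (add (mul s (gD (2 * p + 1))) X)
    rw [key r X i j m n hX, key s X i j m n hX]
    exact not_congr (h i j m n ⟨X, hX⟩)

theorem lev_add (p n : ℕ) (hn : 1 ≤ n) : lev p (n + p) = lev p n := by
  unfold lev
  rw [if_neg (by omega), if_neg (by omega)]
  have e : n + p - 1 = (n - 1) + p := by omega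
  rw [e, Nat.add_mod_right]

theorem PS_b (p : ℕ) (n : ℕ) (hn : 1 ≤ n) : PS p ⟨0, 1, 0, n⟩ ↔ (n - 1) % p = 0 := by
  have e : lev p n = (n - 1) % p + 1 := by
    unfold lev
    rw [if_neg (by omega)]
  unfold PS
  dsimp only
  rw [e]
  generalize (n - 1) % p = q
  rcases q with _ | q
  · constructor
    · intro _; rfl
    · intro _
      exact Or.inr (Or.inr (Or.inr ⟨rfl, rfl, rfl⟩))
  · constructor
    · intro h
      exfalso
      have h' : Tr p (q + 1 + 1) 0 1 0 := h
      unfold Tr Row at h'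
      omega
    · intro h
      omega

theorem exists_rep (k i j m n : ℕ) : ∃ G, Rep (Step k) G ⟨i, j, m, n⟩ := by
  have h := rep_plus k _ _ _ _ (rep_plus k _ _ _ _ (rep_plus k _ _ _ _
    (rep_mul k gA _ (rep_a k) i) (rep_mul k gB _ (rep_b k) j)) (rep_mul k gC _ (rep_c k) m))
    (rep_mul k (gD k) _ (rep_d k) n)
  refine ⟨add (add (add (mul i gA) (mul j gB)) (mul m gC)) (mul n (gD k)), ?_⟩
  unfold St.plus at h
  simpa using h

/-- The class of `d` has index one and period exactly `p`. -/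
theorem clsD_period (p : ℕ) (hp : 2 ≤ p) : (1 + p) • clsD p = 1 • clsD p ∧
    ∀ m' p' : ℕ, 1 ≤ m' → 1 ≤ p' → (m' + p') • clsD p = m' • clsD p → p ∣ p' := by
  constructor
  · rw [nsmul_eq_iff p hp]
    intro i j m n _
    have e : 1 + p + n = (1 + n) + p := by omega
    unfold PS
    dsimp only
    rw [e, lev_add p (1 + n) (by omega)]
  · intro m' p' hm hp' h
    rw [nsmul_eq_iff p hp] at h
    have hle : m' ≤ p * m' := Nat.le_mul_of_pos_left m' (by omega)
    have h2 := h 0 1 0 (p * m' + 1 - m') (exists_rep _ _ _ _ _)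
    have e1 : m' + p' + (p * m' + 1 - m') = p * m' + p' + 1 := by omega
    have e2 : m' + (p * m' + 1 - m') = p * m' + 1 := by omega
    rw [e1, e2, PS_b p _ (by omega), PS_b p _ (by omega)] at h2
    have e3 : p * m' + p' + 1 - 1 = p' + p * m' := by omega
    have e4 : p * m' + 1 - 1 = p * m' := by omega
    rw [e3, e4, Nat.mul_mod_right, Nat.add_mul_mod_self_left] at h2
    exact Nat.dvd_of_mod_eq_zero (h2.2 rfl)

/-- Every period occurs. -/
theorem every_period (p : ℕ) (hp : 1 ≤ p) :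
    ∃ (A : ClosedSet) (x : MisereQuotient A), HasPeriod x p := by
  by_cases h2 : 2 ≤ p
  · refine ⟨heapClass (2 * p + 1), clsD p, 1, le_rfl, hp, (clsD_period p h2).1, ?_⟩
    intro m' p' hm hp' h
    exact ⟨hm, Nat.le_of_dvd hp' ((clsD_period p h2).2 m' p' hm hp' h)⟩
  · have h1 : p = 1 := by omega
    subst h1
    refine ⟨heapClass 0, 0, 1, le_rfl, le_rfl, ?_, ?_⟩
    · simp
    · intro m' p' hm hp' _
      exact ⟨hm, hp'⟩

end Pool.Agent.H893R3
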